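import Mathlib
import Pool.Agent.H220.K.Stm

/-!
# MP_0015b7_an, S_visc (helper549): plurisubharmonic functions have the test function property
-/

set_option autoImplicit false

open Set Filter Topology Metric
open scoped ContDiff ComplexConjugate

namespace Pool.Agent.H549.K

open Pool.Agent.H220.K

/-- Taylor's formula of order two -/
theorem taylor2 {s : ℂ → ℝ} (hs : ContDiffAt ℝ 2 s 0) {ε : ℝ} (hε : 0 < ε) :
    ∃ r : ℝ, 0 < r ∧ ∀ ζ : ℂ, ‖ζ‖ ≤ r →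
      |s ζ - s 0 - fderiv ℝ s 0 ζ - 1 / 2 * fderiv ℝ (fderiv ℝ s) 0 ζ ζ| ≤ ε * ‖ζ‖ ^ 2 := by
  have h1 : ∀ᶠ ζ in 𝓝 (0 : ℂ), DifferentiableAt ℝ s ζ := by
    filter_upwards [hs.eventually (by simp)] with ζ hζ
    exact hζ.differentiableAt (by norm_num)
  have h2 : DifferentiableAt ℝ (fderiv ℝ s) 0 :=
    (hs.fderiv_right (m := 1) (by norm_num)).differentiableAt (by norm_num)
  have h3 := h2.hasFDerivAt.isLittleO.bound hε
  obtain ⟨r, hr, hr1⟩ := Metric.eventually_nhds_iff.mp (h1.and h3)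
  refine ⟨r / 2, half_pos hr, ?_⟩
  intro ζ hζ
  set B := fderiv ℝ (fderiv ℝ s) 0 with hB
  have h4 : ∀ t ∈ Icc (0 : ℝ) 1, DifferentiableAt ℝ s (t • ζ) ∧
      ‖fderiv ℝ s (t • ζ) - fderiv ℝ s 0 - B (t • ζ)‖ ≤ ε * ‖ζ‖ := by
    intro t ht
    have e0 : ‖t • ζ‖ ≤ ‖ζ‖ := by
      rw [norm_smul, Real.norm_eq_abs, abs_of_nonneg ht.1]
      exact mul_le_of_le_one_left (norm_nonneg _) ht.2
    have e1 : dist (t • ζ) 0 < r := by
      rw [dist_zero_right]
      linarith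
    obtain ⟨e2, e3⟩ := hr1 e1
    rw [sub_zero] at e3
    exact ⟨e2, e3.trans (mul_le_mul_of_nonneg_left e0 hε.le)⟩
  have h5 : ∀ t ∈ Icc (0 : ℝ) 1, HasDerivWithinAt
      (fun t : ℝ => s (t • ζ) - t * fderiv ℝ s 0 ζ - t ^ 2 * (1 / 2 * B ζ ζ))
      (fderiv ℝ s (t • ζ) ζ - fderiv ℝ s 0 ζ - t * B ζ ζ) (Icc 0 1) t := by
    intro t ht
    have e1 : HasDerivAt (fun t : ℝ => t • ζ) ((1 : ℝ) • ζ) t := (hasDerivAt_id t).smul_const ζ
    have e2 : HasDerivAt (fun t : ℝ => s (t • ζ)) (fderiv ℝ s (t • ζ) ((1 : ℝ) • ζ)) t :=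
      (h4 t ht).1.hasFDerivAt.comp_hasDerivAt t e1
    have e3 : HasDerivAt (fun t : ℝ => t * fderiv ℝ s 0 ζ) (1 * fderiv ℝ s 0 ζ) t :=
      (hasDerivAt_id t).mul_const _
    have e4 : HasDerivAt (fun t : ℝ => t ^ 2 * (1 / 2 * B ζ ζ))
        (((2 : ℕ) : ℝ) * t ^ (2 - 1) * (1 / 2 * B ζ ζ)) t := (hasDerivAt_pow 2 t).mul_const _
    refine ((e2.sub e3).sub e4).hasDerivWithinAt.congr_deriv ?_
    rw [one_smul]
    push_cast
    ring
  have h6 : ∀ t ∈ Ico (0 : ℝ) 1, ‖fderiv ℝ s (t • ζ) ζ - fderiv ℝ s 0 ζ - t * B ζ ζ‖ ≤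
      ε * ‖ζ‖ ^ 2 := by
    intro t ht
    have e1 : fderiv ℝ s (t • ζ) ζ - fderiv ℝ s 0 ζ - t * B ζ ζ =
        (fderiv ℝ s (t • ζ) - fderiv ℝ s 0 - B (t • ζ)) ζ := by
      rw [map_smul]
      simp
    rw [e1]
    refine (ContinuousLinearMap.le_opNorm _ _).trans ?_
    have e2 := mul_le_mul_of_nonneg_right (h4 t ⟨ht.1, ht.2.le⟩).2 (norm_nonneg ζ)
    refine e2.trans (le_of_eq ?_)
    ring
  have h7 := norm_image_sub_le_of_norm_deriv_le_segment_01' h5 h6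
  simp only [one_smul, zero_smul, Real.norm_eq_abs] at h7
  have h8 : s ζ - s 0 - fderiv ℝ s 0 ζ - 1 / 2 * B ζ ζ =
      s ζ - 1 * fderiv ℝ s 0 ζ - 1 ^ 2 * (1 / 2 * B ζ ζ) -
        (s 0 - 0 * fderiv ℝ s 0 ζ - 0 ^ 2 * (1 / 2 * B ζ ζ)) := by
    ring
  rw [h8]
  exact h7

/-- the second derivative along a real line -/
theorem second_line {s : ℂ → ℝ} (hs : ContDiffAt ℝ 2 s 0) (c : ℂ) :
    iteratedDeriv 2 (fun t : ℝ => s ((t : ℂ) * c)) 0 = fderiv ℝ (fderiv ℝ s) 0 c c := by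
  have h1 : ∀ᶠ ζ in 𝓝 (0 : ℂ), DifferentiableAt ℝ s ζ := by
    filter_upwards [hs.eventually (by simp)] with ζ hζ
    exact hζ.differentiableAt (by norm_num)
  have h2 : DifferentiableAt ℝ (fderiv ℝ s) 0 :=
    (hs.fderiv_right (m := 1) (by norm_num)).differentiableAt (by norm_num)
  have hl : ∀ t : ℝ, HasDerivAt (fun t : ℝ => (t : ℂ) * c) c t := by
    intro t
    have e1 := (Complex.ofRealCLM.hasDerivAt (x := t)).mul_const c
    simpa using e1
  have htend : Tendsto (fun t : ℝ => (t : ℂ) * c) (𝓝 0) (𝓝 0) := by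
    have : Continuous (fun t : ℝ => (t : ℂ) * c) := by fun_prop
    simpa using this.tendsto 0
  have h3 : deriv (fun t : ℝ => s ((t : ℂ) * c)) =ᶠ[𝓝 0]
      fun t : ℝ => fderiv ℝ s ((t : ℂ) * c) c := by
    filter_upwards [htend.eventually h1] with t ht
    exact (ht.hasFDerivAt.comp_hasDerivAt t (hl t)).deriv
  rw [iteratedDeriv_succ, iteratedDeriv_one, h3.deriv_eq]
  have h4 : HasFDerivAt (fderiv ℝ s) (fderiv ℝ (fderiv ℝ s) 0) (((0 : ℝ) : ℂ) * c) := by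
    have e : ((0 : ℝ) : ℂ) * c = 0 := by simp
    rw [e]
    exact h2.hasFDerivAt
  have h5 : HasDerivAt (fun t : ℝ => fderiv ℝ s ((t : ℂ) * c))
      (fderiv ℝ (fderiv ℝ s) 0 c) 0 := h4.comp_hasDerivAt (0 : ℝ) (hl 0)
  have h6 : HasDerivAt (fun t : ℝ => fderiv ℝ s ((t : ℂ) * c) c)
      (fderiv ℝ (fderiv ℝ s) 0 c c) 0 := by
    have e1 := h5.clm_apply (hasDerivAt_const (0 : ℝ) c)
    simpa using e1
  exact h6.deriv

/-- the average of a quadratic polynomial over the unit circle -/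
theorem avg (A a b c d e : ℝ) :
    Real.circleAverage (fun ζ : ℂ => A + a * ζ.re + b * ζ.im +
      (c * ζ.re ^ 2 + d * (ζ.im * ζ.re) + e * ζ.im ^ 2)) 0 1 = A + (c + e) / 2 := by
  rw [Real.circleAverage]
  have h1 : ∀ θ : ℝ, (circleMap 0 1 θ).re = Real.cos θ ∧ (circleMap 0 1 θ).im = Real.sin θ := by
    intro θ
    rw [circleMap, Complex.exp_mul_I]
    simp [← Complex.ofReal_cos, ← Complex.ofReal_sin]
  simp only [fun θ => (h1 θ).1, fun θ => (h1 θ).2]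
  have ic : ∀ f : ℝ → ℝ, Continuous f →
      IntervalIntegrable f MeasureTheory.volume 0 (2 * Real.pi) :=
    fun f hf => hf.intervalIntegrable _ _
  have i1 : ∫ θ in (0 : ℝ)..(2 * Real.pi), A + a * Real.cos θ + b * Real.sin θ +
      (c * Real.cos θ ^ 2 + d * (Real.sin θ * Real.cos θ) + e * Real.sin θ ^ 2) =
      2 * Real.pi * A + Real.pi * (c + e) := by
    rw [intervalIntegral.integral_add (ic _ (by fun_prop)) (ic _ (by fun_prop)),
      intervalIntegral.integral_add (ic _ (by fun_prop)) (ic _ (by fun_prop)),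
      intervalIntegral.integral_add (ic _ (by fun_prop)) (ic _ (by fun_prop)),
      intervalIntegral.integral_add (ic _ (by fun_prop)) (ic _ (by fun_prop)),
      intervalIntegral.integral_add (ic _ (by fun_prop)) (ic _ (by fun_prop)),
      intervalIntegral.integral_const_mul, intervalIntegral.integral_const_mul,
      intervalIntegral.integral_const_mul, intervalIntegral.integral_const_mul,
      intervalIntegral.integral_const_mul, integral_cos, integral_sin, integral_cos_sq,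
      integral_sin_mul_cos₁, integral_sin_sq, intervalIntegral.integral_const]
    simp
    ring
  rw [i1, smul_eq_mul]
  have := Real.pi_pos
  field_simp

theorem s_visc : S_visc := by
  intro V u hV hu x hx hux φ hφ hle ξ
  by_contra hneg
  push Not at hneg
  set s : ℂ → ℝ := fun ζ => φ (x + ζ • ξ) with hsd
  have hs : ContDiffAt ℝ 2 s 0 := by
    have e1 : ContDiff ℝ 2 (fun ζ : ℂ => x + ζ • ξ) :=
      contDiff_const.add (contDiff_id.smul contDiff_const)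
    have e2 : ContDiffAt ℝ 2 φ (x + (0 : ℂ) • ξ) := by simpa using hφ
    exact ContDiffAt.comp (g := φ) (0 : ℂ) e2 e1.contDiffAt
  set L := fderiv ℝ s 0 with hL
  set B := fderiv ℝ (fderiv ℝ s) 0 with hB
  have hlev : levi φ x ξ = (B 1 1 + B Complex.I Complex.I) / 4 := by
    rw [levi_line]
    unfold levi
    have e1 : (fun t : ℝ => φ (x + ((0 : ℂ) + (t : ℂ) • (1 : ℂ)) • ξ)) =
        fun t : ℝ => s ((t : ℂ) * 1) := by
      funext t
      rw [hsd, zero_add, smul_eq_mul]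
    have e2 : (fun t : ℝ => φ (x + ((0 : ℂ) + ((t : ℂ) * Complex.I) • (1 : ℂ)) • ξ)) =
        fun t : ℝ => s ((t : ℂ) * Complex.I) := by
      funext t
      rw [hsd, zero_add, smul_eq_mul, mul_one]
    rw [e1, e2, second_line hs, second_line hs]
  set lam := levi φ x ξ with hlam
  obtain ⟨r₁, hr₁, hT⟩ := taylor2 hs (half_pos (neg_pos.mpr hneg))
  -- the radius
  have hcont : Tendsto (fun ζ : ℂ => x + ζ • ξ) (𝓝 0) (𝓝 x) := by
    have : Continuous (fun ζ : ℂ => x + ζ • ξ) := by fun_prop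
    simpa using this.tendsto 0
  have hVx : ∀ᶠ y in 𝓝 x, y ∈ V := hV.mem_nhds hx
  obtain ⟨r₂, hr₂, hr₂'⟩ := Metric.eventually_nhds_iff.mp (hcont.eventually (hVx.and hle))
  set r : ℝ := min r₁ (r₂ / 2) with hr
  have hr0 : 0 < r := lt_min hr₁ (half_pos hr₂)
  have hrr : ∀ ζ : ℂ, ‖ζ‖ ≤ 1 → ‖(r : ℂ) * ζ‖ ≤ r := by
    intro ζ hζ
    rw [norm_mul, Complex.norm_real, Real.norm_eq_abs, abs_of_pos hr0]
    exact mul_le_of_le_one_right hr0.le hζ
  have hpt : ∀ ζ : ℂ, x + ζ • ((r : ℂ) • ξ) = x + ((r : ℂ) * ζ) • ξ := by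
    intro ζ
    rw [smul_smul, mul_comm]
  have hin : ∀ ζ : ℂ, ‖ζ‖ ≤ 1 → x + ((r : ℂ) * ζ) • ξ ∈ V ∧
      u (x + ((r : ℂ) * ζ) • ξ) ≤
        ((φ (x + ((r : ℂ) * ζ) • ξ) - φ x + (u x).toReal : ℝ) : EReal) := by
    intro ζ hζ
    apply hr₂'
    rw [dist_zero_right]
    have e1 := hrr ζ hζ
    have e2 : r ≤ r₂ / 2 := min_le_right _ _
    linarith
  -- the majorant
  have hdec : ∀ ζ : ℂ, ζ = ζ.re • (1 : ℂ) + ζ.im • Complex.I := by
    intro ζ
    apply Complex.ext <;> simp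
  have hLd : ∀ ζ : ℂ, L ζ = L 1 * ζ.re + L Complex.I * ζ.im := by
    intro ζ
    conv_lhs => rw [hdec ζ]
    rw [map_add, map_smul, map_smul, smul_eq_mul, smul_eq_mul]
    ring
  have hBd : ∀ ζ : ℂ, B ζ ζ = B 1 1 * ζ.re ^ 2 + (B 1 Complex.I + B Complex.I 1) * (ζ.im * ζ.re) +
      B Complex.I Complex.I * ζ.im ^ 2 := by
    intro ζ
    conv_lhs => rw [hdec ζ]
    rw [map_add, map_smul, map_smul]
    simp only [add_apply, smul_apply, map_add, map_smul,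
      smul_eq_mul]
    ring
  have hr2 : r ^ 2 * (1 / 2) ≠ 0 := by positivity
  set h : ℂ → ℝ := fun ζ => ((u x).toReal + -lam / 2 * r ^ 2) + (r * L 1) * ζ.re +
    (r * L Complex.I) * ζ.im + ((r ^ 2 / 2 * B 1 1) * ζ.re ^ 2 +
      (r ^ 2 / 2 * (B 1 Complex.I + B Complex.I 1)) * (ζ.im * ζ.re) +
      (r ^ 2 / 2 * B Complex.I Complex.I) * ζ.im ^ 2) with hh
  have hmaj : ∀ ζ : ℂ, ‖ζ‖ = 1 → u (x + ζ • ((r : ℂ) • ξ)) ≤ (h ζ : EReal) := by
    intro ζ hζ
    rw [hpt]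
    refine (hin ζ hζ.le).2.trans ?_
    rw [EReal.coe_le_coe_iff]
    have e1 := hT ((r : ℂ) * ζ) ((hrr ζ hζ.le).trans (min_le_left _ _))
    have e2 : ‖(r : ℂ) * ζ‖ = r := by
      rw [norm_mul, hζ, mul_one, Complex.norm_real, Real.norm_eq_abs, abs_of_pos hr0]
    have e3 : L ((r : ℂ) * ζ) = r * L ζ := by
      rw [← Complex.real_smul, map_smul, smul_eq_mul]
    have e4 : B ((r : ℂ) * ζ) ((r : ℂ) * ζ) = r ^ 2 * B ζ ζ := by
      rw [← Complex.real_smul, map_smul, map_smul]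
      simp only [smul_apply, smul_eq_mul]
      ring
    rw [e2, e3, e4, abs_le] at e1
    have e5 := e1.2
    have e6 : s 0 = φ x := by
      rw [hsd]
      simp
    have e7 : s ((r : ℂ) * ζ) = φ (x + ((r : ℂ) * ζ) • ξ) := rfl
    rw [e6, e7, hLd ζ, hBd ζ] at e5
    rw [hh]
    dsimp only
    linarith
  have hc : Continuous h := by
    rw [hh]
    fun_prop
  have h1 := hu.mean x ((r : ℂ) • ξ) (fun ζ hζ => by rw [hpt]; exact (hin ζ hζ).1) h hc hmaj
  have h2 : Real.circleAverage h 0 1 = (u x).toReal + lam / 2 * r ^ 2 := by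
    rw [hh, avg, hlev]
    ring
  rw [h2, ← EReal.coe_toReal (hu.ne_top x hx) hux, EReal.toReal_coe, EReal.coe_le_coe_iff] at h1
  have h3 : 0 < r ^ 2 := by positivity
  nlinarith

end Pool.Agent.H549.K
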